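import Pool.Agent.Helper86.BD.GW1
import Pool.Agent.Helper37.BD.GB2
import Pool.Agent.Helper81.BD.GR1
import Pool.Agent.Helper83.BD.GR3
import Pool.Agent.Helper99.BD.GR4
import Pool.Agent.Helper4.BD.GR5

/-!
# Module GR6: rerouting in reduced drawings
-/

noncomputable section

open Finset Helper5.CR Classical Equiv Equiv.Perm

namespace Helper5.BD

variable {V E : Type} [Fintype E] {src tgt : E → V}

private theorem wa_wa_GR6 {D : Type} {α : Perm D} (hα : ∀ d, α (α d) = d) (a : D × Fin 5) :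
    wa α (wa α a) = a := by
  obtain ⟨d, i⟩ := a
  fin_cases i <;> simp [wa, hα]

private theorem wa_ne_GR6 {D : Type} {α : Perm D} (hne : ∀ d, α d ≠ d) (a : D × Fin 5) :
    wa α a ≠ a := by
  obtain ⟨d, i⟩ := a
  fin_cases i <;> simp [wa, hne]

private theorem beq_GR6 (X D : Type) (inst : DecidableEq (X ⊕ D)) :
    (Sum.instBEq : BEq (X ⊕ D)) = @instBEqOfDecidableEq _ inst := by
  have h1 : ∀ a b : X ⊕ D, (@BEq.beq _ Sum.instBEq a b) =
      (@BEq.beq _ (@instBEqOfDecidableEq _ inst) a b) := by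
    intro a b
    have h2 : @BEq.beq _ (@instBEqOfDecidableEq _ inst) a b = true ↔ a = b :=
      @beq_iff_eq _ (@instBEqOfDecidableEq _ inst) _ a b
    rw [Bool.eq_iff_iff, h2]
    cases a with
    | inl a =>
      cases b with
      | inl b =>
        show (a == b) = true ↔ (Sum.inl a : X ⊕ D) = Sum.inl b
        rw [beq_iff_eq, Sum.inl.injEq]
      | inr b =>
        show false = true ↔ (Sum.inl a : X ⊕ D) = Sum.inr b
        simp
    | inr a =>
      cases b with
      | inl b =>
        show false = true ↔ (Sum.inr a : X ⊕ D) = Sum.inl b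
        simp
      | inr b =>
        show (a == b) = true ↔ (Sum.inr a : X ⊕ D) = Sum.inr b
        rw [beq_iff_eq, Sum.inr.injEq]
  exact congrArg BEq.mk (funext fun a => funext fun b => h1 a b)

private theorem count_GR6 {X D : Type} (inst : DecidableEq (X ⊕ D)) (l : List (X ⊕ D))
    (y : X ⊕ D) :
    @List.count _ Sum.instBEq y l = @List.count _ (@instBEqOfDecidableEq _ inst) y l := by
  rw [beq_GR6 X D inst]

private theorem count_zero_GR6 {X D : Type} (l : List (X ⊕ D)) (y : X ⊕ D)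
    (h : @List.count _ Sum.instBEq y l = 0) : y ∉ l := by
  rw [count_GR6 (fun a b => propDecidable (a = b))] at h
  exact (@List.count_eq_zero _ (@instBEqOfDecidableEq _ (fun a b => propDecidable (a = b))) _
    y l).1 h

theorem reroute_red [Fintype V] (P : PreDrawing src tgt) (hG : P.Good) (hR : Red P)
    (hne : ∀ e, src e ≠ tgt e) (hpos : ∀ e, ipts P e ≠ []) (F : Finset E) (g₁ g₂ : E → E)
    (ap : E → V) (M : ℕ)
    (h1 : ∀ f ∈ F, (src (g₁ f) = ap f ∧ tgt (g₁ f) = src f) ∨
      (src (g₁ f) = src f ∧ tgt (g₁ f) = ap f))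
    (h2 : ∀ f ∈ F, (src (g₂ f) = ap f ∧ tgt (g₂ f) = tgt f) ∨
      (src (g₂ f) = tgt f ∧ tgt (g₂ f) = ap f))
    (hM : ∀ v, (F.filter (fun f => ap f = v)).card ≤ M) :
    crM src tgt ≤ away P F + 5 * (8 * M + 2) ^ 2 *
      ∑ f ∈ F, ((ipts P (g₁ f)).length + (ipts P (g₂ f)).length + mdeg src tgt (ap f)) := by
  obtain ⟨σ', α', hW⟩ := exists_wheel P.planar P.α_invol P.α_ne P.pt P.pt_iff
  have hinv : ∀ a, α' (α' a) = a := by
    intro a
    rw [hW.opp, hW.opp, wa_wa_GR6 P.α_invol]
  have hnea : ∀ a, α' a ≠ a := by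
    intro a
    rw [hW.opp]
    exact wa_ne_GR6 P.α_ne a
  have hg : ∀ f ∈ F, g₁ f ≠ g₂ f := by
    intro f hf h
    have e1 := h1 f hf
    have e2 := h2 f hf
    rw [h] at e1
    have e3 := hne f
    rcases e1 with ⟨a1, a2⟩ | ⟨a1, a2⟩ <;> rcases e2 with ⟨b1, b2⟩ | ⟨b1, b2⟩
    · exact e3 (a2.symm.trans b2)
    · exact e3 (a2.symm.trans (b2.trans (a1.symm.trans b1)))
    · exact e3 (a1.symm.trans (b1.trans (a2.symm.trans b2)))
    · exact e3 (a1.symm.trans b1)
  -- the interior points of the edges are not vertices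
  have hz : ∀ e v, (ipts P e).count (P.loc v) = 0 := by
    intro e v
    rw [List.count_eq_zero]
    intro h
    unfold ipts at h
    rw [List.mem_map] at h
    obtain ⟨d, hd, h⟩ := h
    exact P.route_inner e d hd v h
  have hroute : ∀ e, ∃ l : List (P.D × Fin 5),
      IsWalk (wpt P.σ P.pt) α' (Sum.inl (P.loc (src e))) (Sum.inl (P.loc (tgt e))) l ∧
      l.Nodup ∧ (∀ a ∈ l, wpt P.σ P.pt a ≠ wpt P.σ P.pt (α' a)) ∧
      (∀ x, (l.tail.map (wpt P.σ P.pt)).count (Sum.inl x) ≤
        if e ∈ F then (ipts P (g₁ e)).count x + (ipts P (g₂ e)).count x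
          else (ipts P e).count x) ∧
      ∀ d, (l.tail.map (wpt P.σ P.pt)).count (Sum.inr d) ≤
        if e ∈ F then sg P (g₁ e) d + sg P (g₂ e) d + if P.pt d = P.loc (ap e) then 1 else 0
          else sg P e d := by
    intro e
    by_cases he : e ∈ F
    · obtain ⟨l, a1, a2, a3, a4, a5⟩ := wheel_around P hne σ' α' hW (g₁ e) (g₂ e) (hg e he)
        (ap e) (src e) (tgt e) (h1 e he) (h2 e he)
      refine ⟨l, a1, a2, a3, fun x => ?_, fun d => ?_⟩
      · rw [if_pos he]
        exact a4 x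
      · rw [if_pos he]
        exact a5 d
    · obtain ⟨l, a1, a2, a3, a4, a5⟩ := wheel_edge P σ' α' hW e
      refine ⟨l, a1, a2, a3, fun x => ?_, fun d => ?_⟩
      · rw [if_neg he]
        exact a4 x
      · rw [if_neg he]
        exact a5 d
  choose r r1 r2 r3 r4 r5 using hroute
  have hin : ∀ e, ∀ d ∈ (r e).tail, ∀ v, wpt P.σ P.pt d ≠ Sum.inl (P.loc v) := by
    intro e d hd v h
    have h3 := r4 e (P.loc v)
    have h4 : (if e ∈ F then (ipts P (g₁ e)).count (P.loc v) + (ipts P (g₂ e)).count (P.loc v)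
          else (ipts P e).count (P.loc v)) = 0 := by
      split_ifs
      · rw [hz, hz]
      · exact hz e v
    rw [h4, Nat.le_zero] at h3
    exact count_zero_GR6 _ _ h3 (List.mem_map.2 ⟨d, hd, h⟩)
  have hb := bundle_bound σ' α' hinv hnea hW.planar (wpt P.σ P.pt) hW.same
    (fun v => Sum.inl (P.loc v)) (fun v w h => P.loc_inj (Sum.inl_injective h)) r r1 hin r2 r3
  refine hb.trans ?_
  simp only [← count_GR6 (fun a b => propDecidable (a = b))]
  refine cost_bound P hG hne hpos F g₁ g₂ ap M (fun f hf => ?_) (fun f hf => ?_) hM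
    (fun v => card_at_vertex P hne hR.1 v) (sum_sg P)
    (fun y => ∑ e, ((r e).tail.map (wpt P.σ P.pt)).count y) (fun x => ?_) (fun d => ?_)
  · exact (h1 f hf).imp (fun h => h.1) (fun h => h.2)
  · exact (h2 f hf).imp (fun h => h.1) (fun h => h.2)
  · show ∑ e, ((r e).tail.map (wpt P.σ P.pt)).count (Sum.inl x) ≤ _
    rw [← Finset.sum_sdiff (Finset.subset_univ F)]
    refine Nat.add_le_add (Finset.sum_le_sum fun e he => ?_) (Finset.sum_le_sum fun e he => ?_)
    · have h3 := r4 e x
      rw [if_neg (Finset.mem_sdiff.1 he).2] at h3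
      exact h3
    · have h3 := r4 e x
      rw [if_pos he] at h3
      exact h3
  · show ∑ e, ((r e).tail.map (wpt P.σ P.pt)).count (Sum.inr d) ≤ _
    rw [← Finset.sum_sdiff (Finset.subset_univ F)]
    refine Nat.add_le_add (Finset.sum_le_sum fun e he => ?_) (Finset.sum_le_sum fun e he => ?_)
    · have h3 := r5 e d
      rw [if_neg (Finset.mem_sdiff.1 he).2] at h3
      exact h3
    · have h3 := r5 e d
      rw [if_pos he] at h3
      exact h3

end Helper5.BD
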